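import Mathlib

set_option autoImplicit false

/-!
# Polynomial expressions in jets: linear part by dual numbers and quadratic remainder

`W` is a normed commutative ring, `E` a normed space, `D j : E → W` are additive maps (the entries
of the jet). A dual number `δ = (v, d)` stands for the affine map `x ↦ v + ∑ j, d j * D j x`.
`Quad D r G δ t` says that `G : E → W` has value `δ.v` at `0`, linear part `∑ j, δ.d j * D j x`, and
that its remainder is quadratic on the ball of radius `r`, with the constants `t`.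
-/

namespace Pool.MP_ce2c94_gt.W93

/-- Dual numbers: a value and the coefficients of the linear part. -/
structure Du (W J : Type*) where
  /-- the value -/
  v : W
  /-- the coefficients of the linear part -/
  d : J → W

/-- Constants: a bound for the value, for the linear part and for the remainder. -/
structure Tri where
  /-- bound for the value -/
  A : ℚ
  /-- bound for the linear part -/
  l : ℚ
  /-- bound for the remainder -/
  c : ℚ

namespace Tri

/-- Constants of a sum. -/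
def add (s t : Tri) : Tri := ⟨s.A + t.A, s.l + t.l, s.c + t.c⟩

/-- Constants of a multiple. -/
def smul (q : ℚ) (t : Tri) : Tri := ⟨|q| * t.A, |q| * t.l, |q| * t.c⟩

/-- Constants of a product. -/
def mul (r : ℚ) (s t : Tri) : Tri :=
  ⟨s.A * t.A, s.A * t.l + t.A * s.l,
    (s.l + s.c * r) * t.l + (s.A + s.l * r + s.c * r ^ 2) * t.c +
      ((t.l + t.c * r) * s.l + (t.A + t.l * r + t.c * r ^ 2) * s.c)⟩

end Tri

section

variable {W E J : Type*} [NormedCommRing W] [NormedAddCommGroup E] [Fintype J]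

namespace Du

/-- The linear part. -/
def lin (D : J → E →+ W) (δ : Du W J) (x : E) : W := ∑ j, δ.d j * D j x

/-- Sum. -/
def add (s t : Du W J) : Du W J := ⟨s.v + t.v, fun j => s.d j + t.d j⟩

/-- Negative. -/
def neg (s : Du W J) : Du W J := ⟨-s.v, fun j => -s.d j⟩

/-- Difference. -/
def sub (s t : Du W J) : Du W J := ⟨s.v - t.v, fun j => s.d j - t.d j⟩

/-- Product. -/
def mul (s t : Du W J) : Du W J := ⟨s.v * t.v, fun j => s.v * t.d j + t.v * s.d j⟩

/-- Multiple by an element of the ring. -/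
def cmul (w : W) (t : Du W J) : Du W J := ⟨w * t.v, fun j => w * t.d j⟩

/-- The affine map. -/
def aff (D : J → E →+ W) (δ : Du W J) (x : E) : W := δ.v + δ.lin D x

variable (D : J → E →+ W)

theorem lin_sub (δ : Du W J) (x y : E) : δ.lin D (x - y) = δ.lin D x - δ.lin D y := by
  rw [lin, lin, lin, ← Finset.sum_sub_distrib]
  exact Finset.sum_congr rfl fun j _ => by rw [map_sub, mul_sub]

theorem lin_zero (δ : Du W J) : δ.lin D 0 = 0 :=
  Finset.sum_eq_zero fun j _ => by rw [map_zero, mul_zero]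

theorem lin_add' (s t : Du W J) (x : E) : (s.add t).lin D x = s.lin D x + t.lin D x := by
  rw [lin, lin, lin, ← Finset.sum_add_distrib]
  exact Finset.sum_congr rfl fun j _ => add_mul _ _ _

theorem lin_neg' (s : Du W J) (x : E) : s.neg.lin D x = -s.lin D x := by
  rw [lin, lin, ← Finset.sum_neg_distrib]
  exact Finset.sum_congr rfl fun j _ => neg_mul _ _

theorem lin_sub' (s t : Du W J) (x : E) : (s.sub t).lin D x = s.lin D x - t.lin D x := by
  rw [lin, lin, lin, ← Finset.sum_sub_distrib]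
  exact Finset.sum_congr rfl fun j _ => sub_mul _ _ _

theorem lin_mul' (s t : Du W J) (x : E) :
    (s.mul t).lin D x = s.v * t.lin D x + t.v * s.lin D x := by
  rw [lin, lin, lin, Finset.mul_sum, Finset.mul_sum, ← Finset.sum_add_distrib]
  refine Finset.sum_congr rfl fun j _ => ?_
  change (s.v * t.d j + t.v * s.d j) * D j x = _
  ring

theorem lin_cmul' (w : W) (t : Du W J) (x : E) : (cmul w t).lin D x = w * t.lin D x := by
  rw [lin, lin, Finset.mul_sum]
  exact Finset.sum_congr rfl fun j _ => mul_assoc _ _ _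

/-- A bound for the linear part. -/
theorem lin_le {D : J → E →+ W} {dn : J → ℝ} (hD : ∀ j x, ‖D j x‖ ≤ dn j * ‖x‖) (δ : Du W J)
    {l : ℝ} (hl : ∑ j, ‖δ.d j‖ * dn j ≤ l) (x : E) : ‖δ.lin D x‖ ≤ l * ‖x‖ := by
  calc ‖δ.lin D x‖ ≤ ∑ j, ‖δ.d j * D j x‖ := norm_sum_le _ _
    _ ≤ ∑ j, ‖δ.d j‖ * dn j * ‖x‖ := by
      refine Finset.sum_le_sum fun j _ => ?_
      calc ‖δ.d j * D j x‖ ≤ ‖δ.d j‖ * ‖D j x‖ := norm_mul_le _ _
        _ ≤ ‖δ.d j‖ * (dn j * ‖x‖) := mul_le_mul_of_nonneg_left (hD j x) (norm_nonneg _)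
        _ = _ := (mul_assoc _ _ _).symm
    _ = (∑ j, ‖δ.d j‖ * dn j) * ‖x‖ := (Finset.sum_mul _ _ _).symm
    _ ≤ l * ‖x‖ := mul_le_mul_of_nonneg_right hl (norm_nonneg _)

end Du

/-- The map `G` has value `δ.v` at `0`, linear part `δ.lin D` and quadratic remainder on the ball of
radius `r`. -/
structure Quad (D : J → E →+ W) (r : ℚ) (G : E → W) (δ : Du W J) (t : Tri) : Prop where
  r0 : 0 ≤ r
  A0 : 0 ≤ t.A
  l0 : 0 ≤ t.l
  c0 : 0 ≤ t.c
  hA : ‖δ.v‖ ≤ t.A
  hl : ∀ x, ‖δ.lin D x‖ ≤ t.l * ‖x‖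
  h0 : G 0 = δ.v
  hq : ∀ x y, ‖x‖ ≤ r → ‖y‖ ≤ r → ‖G x - G y - δ.lin D (x - y)‖ ≤ t.c * r * ‖x - y‖

namespace Quad

variable {D : J → E →+ W} {r : ℚ} {G G' : E → W} {δ δ' : Du W J} {t t' : Tri}

/-- An affine map. -/
theorem aff (r0 : 0 ≤ r) (δ : Du W J) {A l : ℚ} (A0 : 0 ≤ A) (l0 : 0 ≤ l) (hA : ‖δ.v‖ ≤ A)
    (hl : ∀ x, ‖δ.lin D x‖ ≤ l * ‖x‖) : Quad D r (δ.aff D) δ ⟨A, l, 0⟩ where
  r0 := r0
  A0 := A0
  l0 := l0
  c0 := le_rfl
  hA := hA
  hl := hl
  h0 := by rw [Du.aff, Du.lin_zero, add_zero]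
  hq := by
    intro x y _ _
    have h1 : δ.aff D x - δ.aff D y - δ.lin D (x - y) = 0 := by
      rw [Du.aff, Du.aff, Du.lin_sub]
      ring
    rw [h1, norm_zero]
    simp

/-- A constant. -/
theorem const (r0 : 0 ≤ r) (w : W) {A : ℚ} (A0 : 0 ≤ A) (hA : ‖w‖ ≤ A) :
    Quad D r (fun _ => w) ⟨w, fun _ => 0⟩ ⟨A, 0, 0⟩ where
  r0 := r0
  A0 := A0
  l0 := le_rfl
  c0 := le_rfl
  hA := hA
  hl := by
    intro x
    rw [Du.lin]
    simp
  h0 := rfl
  hq := by
    intro x y _ _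
    rw [Du.lin]
    simp

/-- Better constants. -/
theorem tighten (H : Quad D r G δ t) {A l : ℚ} (A0 : 0 ≤ A) (l0 : 0 ≤ l) (hA : ‖δ.v‖ ≤ A)
    (hl : ∀ x, ‖δ.lin D x‖ ≤ l * ‖x‖) : Quad D r G δ ⟨A, l, t.c⟩ where
  r0 := H.r0
  A0 := A0
  l0 := l0
  c0 := H.c0
  hA := hA
  hl := hl
  h0 := H.h0
  hq := H.hq

/-- Larger constants. -/
theorem mono (H : Quad D r G δ t) (hA : t.A ≤ t'.A) (hl : t.l ≤ t'.l)
    (hc : t.c ≤ t'.c) : Quad D r G δ t' where
  r0 := H.r0
  A0 := H.A0.trans hA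
  l0 := H.l0.trans hl
  c0 := H.c0.trans hc
  hA := H.hA.trans (by exact_mod_cast hA)
  hl := fun x => (H.hl x).trans
    (mul_le_mul_of_nonneg_right (by exact_mod_cast hl) (norm_nonneg _))
  h0 := H.h0
  hq := by
    intro x y hx hy
    refine (H.hq x y hx hy).trans (mul_le_mul_of_nonneg_right ?_ (norm_nonneg _))
    have h1 : (t.c : ℝ) ≤ t'.c := by exact_mod_cast hc
    have h2 : (0 : ℝ) ≤ r := by exact_mod_cast H.r0
    exact mul_le_mul_of_nonneg_right h1 h2

theorem congr (H : Quad D r G δ t) (hG : ∀ x, G' x = G x) (hv : δ'.v = δ.v)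
    (hd : ∀ j, δ'.d j = δ.d j) : Quad D r G' δ' t := by
  have h1 : G' = G := funext hG
  have h2 : δ' = δ := by
    cases δ
    cases δ'
    simp only at hv hd
    rw [hv, funext hd]
  rw [h1, h2]
  exact H

theorem add (H : Quad D r G δ t) (H' : Quad D r G' δ' t') :
    Quad D r (fun x => G x + G' x) (δ.add δ') (t.add t') where
  r0 := H.r0
  A0 := add_nonneg H.A0 H'.A0
  l0 := add_nonneg H.l0 H'.l0
  c0 := add_nonneg H.c0 H'.c0
  hA := by
    refine (norm_add_le _ _).trans ?_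
    rw [Tri.add]
    push_cast
    exact add_le_add H.hA H'.hA
  hl := by
    intro x
    rw [Du.lin_add', Tri.add]
    refine (norm_add_le _ _).trans ?_
    push_cast
    rw [add_mul]
    exact add_le_add (H.hl x) (H'.hl x)
  h0 := by rw [H.h0, H'.h0]; rfl
  hq := by
    intro x y hx hy
    have e : G x + G' x - (G y + G' y) - (δ.add δ').lin D (x - y) =
        (G x - G y - δ.lin D (x - y)) + (G' x - G' y - δ'.lin D (x - y)) := by
      rw [Du.lin_add']
      ring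
    rw [e, Tri.add]
    refine (norm_add_le _ _).trans ?_
    push_cast
    rw [add_mul, add_mul]
    exact add_le_add (H.hq x y hx hy) (H'.hq x y hx hy)

theorem neg (H : Quad D r G δ t) : Quad D r (fun x => -G x) δ.neg t where
  r0 := H.r0
  A0 := H.A0
  l0 := H.l0
  c0 := H.c0
  hA := by
    change ‖-δ.v‖ ≤ _
    rw [norm_neg]
    exact H.hA
  hl := by
    intro x
    rw [Du.lin_neg', norm_neg]
    exact H.hl x
  h0 := by rw [H.h0]; rfl
  hq := by
    intro x y hx hy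
    have e : -G x - -G y - δ.neg.lin D (x - y) = -(G x - G y - δ.lin D (x - y)) := by
      rw [Du.lin_neg']
      ring
    rw [e, norm_neg]
    exact H.hq x y hx hy

theorem sub (H : Quad D r G δ t) (H' : Quad D r G' δ' t') :
    Quad D r (fun x => G x - G' x) (δ.sub δ') (t.add t') :=
  (H.add H'.neg).congr (fun _ => sub_eq_add_neg _ _) (sub_eq_add_neg _ _)
    fun _ => sub_eq_add_neg _ _

theorem size (H : Quad D r G δ t) {x : E} (hx : ‖x‖ ≤ r) :
    ‖G x - δ.v‖ ≤ t.l * r + t.c * r ^ 2 := by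
  have hr : (0 : ℝ) ≤ r := (norm_nonneg x).trans hx
  have h1 := H.hq x 0 hx (by rw [norm_zero]; exact hr)
  rw [sub_zero, H.h0] at h1
  have h2 := H.hl x
  have hl0 : (0 : ℝ) ≤ t.l := by exact_mod_cast H.l0
  have hc0 : (0 : ℝ) ≤ t.c := by exact_mod_cast H.c0
  have e : G x - δ.v = (G x - δ.v - δ.lin D x) + δ.lin D x := by ring
  rw [e]
  refine (norm_add_le _ _).trans ?_
  have h3 : (t.c : ℝ) * r * ‖x‖ ≤ t.c * r ^ 2 := by
    rw [pow_two, ← mul_assoc]
    exact mul_le_mul_of_nonneg_left hx (mul_nonneg hc0 hr)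
  have h4 : (t.l : ℝ) * ‖x‖ ≤ t.l * r := mul_le_mul_of_nonneg_left hx hl0
  linarith

theorem size' (H : Quad D r G δ t) {x : E} (hx : ‖x‖ ≤ r) :
    ‖G x‖ ≤ t.A + t.l * r + t.c * r ^ 2 := by
  have h1 := H.size hx
  have h2 := H.hA
  have e : G x = (G x - δ.v) + δ.v := by ring
  rw [e]
  refine (norm_add_le _ _).trans ?_
  linarith

theorem mul (H : Quad D r G δ t) (H' : Quad D r G' δ' t') :
    Quad D r (fun x => G x * G' x) (δ.mul δ') (Tri.mul r t t') := by
  have hr : (0 : ℝ) ≤ r := by exact_mod_cast H.r0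
  have a0 : (0 : ℝ) ≤ t.A := by exact_mod_cast H.A0
  have a0' : (0 : ℝ) ≤ t'.A := by exact_mod_cast H'.A0
  have l0 : (0 : ℝ) ≤ t.l := by exact_mod_cast H.l0
  have l0' : (0 : ℝ) ≤ t'.l := by exact_mod_cast H'.l0
  have c0 : (0 : ℝ) ≤ t.c := by exact_mod_cast H.c0
  have c0' : (0 : ℝ) ≤ t'.c := by exact_mod_cast H'.c0
  have q1 := H.r0
  have q2 := H.A0
  have q3 := H'.A0
  have q4 := H.l0
  have q5 := H'.l0
  have q6 := H.c0
  have q7 := H'.c0
  refine ⟨H.r0, ?_, ?_, ?_, ?_, ?_, ?_, ?_⟩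
  · exact mul_nonneg q2 q3
  · exact add_nonneg (mul_nonneg q2 q5) (mul_nonneg q3 q4)
  · change 0 ≤ (t.l + t.c * r) * t'.l + (t.A + t.l * r + t.c * r ^ 2) * t'.c +
      ((t'.l + t'.c * r) * t.l + (t'.A + t'.l * r + t'.c * r ^ 2) * t.c)
    positivity
  · change ‖δ.v * δ'.v‖ ≤ ((t.A * t'.A : ℚ) : ℝ)
    push_cast
    exact (norm_mul_le _ _).trans (mul_le_mul H.hA H'.hA (norm_nonneg _) a0)
  · intro x
    rw [Du.lin_mul']
    change _ ≤ ((t.A * t'.l + t'.A * t.l : ℚ) : ℝ) * ‖x‖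
    push_cast
    have h1 : ‖δ.v * δ'.lin D x‖ ≤ t.A * (t'.l * ‖x‖) :=
      (norm_mul_le _ _).trans (mul_le_mul H.hA (H'.hl x) (norm_nonneg _) a0)
    have h2 : ‖δ'.v * δ.lin D x‖ ≤ t'.A * (t.l * ‖x‖) :=
      (norm_mul_le _ _).trans (mul_le_mul H'.hA (H.hl x) (norm_nonneg _) a0')
    refine (norm_add_le _ _).trans ?_
    linarith
  · rw [H.h0, H'.h0]
    rfl
  · intro x y hx hy
    obtain ⟨e, he⟩ : ∃ e, e = G x - G y - δ.lin D (x - y) := ⟨_, rfl⟩
    obtain ⟨e', he'⟩ : ∃ e', e' = G' x - G' y - δ'.lin D (x - y) := ⟨_, rfl⟩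
    have k1 : G x * G' x - G y * G' y - (δ.mul δ').lin D (x - y) =
        ((G x - δ.v) * δ'.lin D (x - y) + G x * e') +
          ((G' y - δ'.v) * δ.lin D (x - y) + G' y * e) := by
      rw [Du.lin_mul', he, he']
      ring
    have hd : (0 : ℝ) ≤ ‖x - y‖ := norm_nonneg _
    have s1 := H.size hx
    have s2 := H'.size hy
    have s3 := H.size' hx
    have s4 := H'.size' hy
    have b1 := H.hq x y hx hy
    have b2 := H'.hq x y hx hy
    rw [← he] at b1
    rw [← he'] at b2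
    have m1 : ‖(G x - δ.v) * δ'.lin D (x - y)‖ ≤ (t.l * r + t.c * r ^ 2) * (t'.l * ‖x - y‖) :=
      (norm_mul_le _ _).trans (mul_le_mul s1 (H'.hl _) (norm_nonneg _) (by positivity))
    have m2 : ‖G x * e'‖ ≤ (t.A + t.l * r + t.c * r ^ 2) * (t'.c * r * ‖x - y‖) :=
      (norm_mul_le _ _).trans (mul_le_mul s3 b2 (norm_nonneg _) (by positivity))
    have m3 : ‖(G' y - δ'.v) * δ.lin D (x - y)‖ ≤ (t'.l * r + t'.c * r ^ 2) * (t.l * ‖x - y‖) :=
      (norm_mul_le _ _).trans (mul_le_mul s2 (H.hl _) (norm_nonneg _) (by positivity))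
    have m4 : ‖G' y * e‖ ≤ (t'.A + t'.l * r + t'.c * r ^ 2) * (t.c * r * ‖x - y‖) :=
      (norm_mul_le _ _).trans (mul_le_mul s4 b1 (norm_nonneg _) (by positivity))
    rw [k1]
    refine (norm_add_le _ _).trans ?_
    refine (add_le_add (norm_add_le _ _) (norm_add_le _ _)).trans ?_
    change _ ≤ (((t.l + t.c * r) * t'.l + (t.A + t.l * r + t.c * r ^ 2) * t'.c +
      ((t'.l + t'.c * r) * t.l + (t'.A + t'.l * r + t'.c * r ^ 2) * t.c) : ℚ) : ℝ) * r * ‖x - y‖
    push_cast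
    calc ‖(G x - δ.v) * δ'.lin D (x - y)‖ + ‖G x * e'‖ +
          (‖(G' y - δ'.v) * δ.lin D (x - y)‖ + ‖G' y * e‖) ≤
        (t.l * r + t.c * r ^ 2) * (t'.l * ‖x - y‖) +
          (t.A + t.l * r + t.c * r ^ 2) * (t'.c * r * ‖x - y‖) +
          ((t'.l * r + t'.c * r ^ 2) * (t.l * ‖x - y‖) +
          (t'.A + t'.l * r + t'.c * r ^ 2) * (t.c * r * ‖x - y‖)) :=
        add_le_add (add_le_add m1 m2) (add_le_add m3 m4)
      _ = _ := by ring

/-- Multiplication by a fixed element of norm at most `q`. -/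
theorem cmul (H : Quad D r G δ t) (w : W) {q : ℚ} (hq0 : 0 ≤ q) (hw : ‖w‖ ≤ q) :
    Quad D r (fun x => w * G x) (Du.cmul w δ) ⟨q * t.A, q * t.l, q * t.c⟩ := by
  have q0 : (0 : ℝ) ≤ q := by exact_mod_cast hq0
  refine ⟨H.r0, mul_nonneg hq0 H.A0, mul_nonneg hq0 H.l0, mul_nonneg hq0 H.c0, ?_, ?_, ?_, ?_⟩
  · push_cast
    exact (norm_mul_le _ _).trans (mul_le_mul hw H.hA (norm_nonneg _) q0)
  · intro x
    rw [Du.lin_cmul']
    push_cast
    rw [mul_assoc]
    exact (norm_mul_le _ _).trans (mul_le_mul hw (H.hl x) (norm_nonneg _) q0)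
  · rw [H.h0]
    rfl
  · intro x y hx hy
    have e : w * G x - w * G y - (Du.cmul w δ).lin D (x - y) =
        w * (G x - G y - δ.lin D (x - y)) := by
      rw [Du.lin_cmul']
      ring
    rw [e]
    push_cast
    refine (norm_mul_le _ _).trans ?_
    refine (mul_le_mul hw (H.hq x y hx hy) (norm_nonneg _) q0).trans (le_of_eq ?_)
    ring

/-- The Lipschitz constant on the ball. -/
theorem lip (H : Quad D r G δ t) {x y : E} (hx : ‖x‖ ≤ r) (hy : ‖y‖ ≤ r) :
    ‖G x - G y‖ ≤ (t.l + t.c * r) * ‖x - y‖ := by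
  have h1 := H.hq x y hx hy
  have h2 := H.hl (x - y)
  have e : G x - G y = (G x - G y - δ.lin D (x - y)) + δ.lin D (x - y) := by ring
  rw [e]
  refine (norm_add_le _ _).trans ?_
  rw [add_mul]
  linarith

end Quad

end

end Pool.MP_ce2c94_gt.W93
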